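import Pool.Agent.Helper9.KernelND
import Pool.Agent.Helper9.Compare

/-! The spectral variation constant `C_K` for commuting `K`-tuples of Hermitian matrices is finite,
and `C_K ≤ √6 K`. -/

set_option autoImplicit false

namespace Pool.Agent.Results.MP_434093_an.FiniteLinear

open scoped ENNReal

/-- A `K`-tuple: pairwise commuting Hermitian `n × n` complex matrices. -/
def IsTuple {K n : ℕ} (A : Fin K → Matrix (Fin n) (Fin n) ℂ) : Prop :=
  (∀ J, (A J).IsHermitian) ∧ ∀ J L, A J * A L = A L * A J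

/-- `α 0, …, α (n-1)` are the joint eigenvalues of `A`, with multiplicity: there is an orthonormal
basis `u` of `ℂⁿ` with `A^{(J)} u_j = α_j^{(J)} u_j`. -/
def JointEigenvalues {K n : ℕ} (A : Fin K → Matrix (Fin n) (Fin n) ℂ)
    (α : Fin n → EuclideanSpace ℝ (Fin K)) : Prop :=
  ∃ u : OrthonormalBasis (Fin n) ℂ (EuclideanSpace ℂ (Fin n)),
    ∀ j J, Matrix.toEuclideanLin (A J) (u j) = ((α j J : ℝ) : ℂ) • u j

/-- `δ = min_π max_j |α_j - β_{π(j)}|`. -/
noncomputable def matchDist {K n : ℕ} (α β : Fin n → EuclideanSpace ℝ (Fin K)) : ℝ :=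
  ⨅ π : Equiv.Perm (Fin n), ⨆ j : Fin n, ‖α j - β (π j)‖

/-- The operator norm of the map `x ↦ (D^{(1)} x, …, D^{(K)} x)` from `ℂⁿ` to `(ℂⁿ)^K`, that is the
least `c ≥ 0` with `(∑_J ‖D^{(J)} x‖²)^{1/2} ≤ c ‖x‖` for all `x`. -/
noncomputable def tupleNorm {K n : ℕ} (D : Fin K → Matrix (Fin n) (Fin n) ℂ) : ℝ :=
  sInf {c : ℝ | 0 ≤ c ∧ ∀ x : EuclideanSpace ℂ (Fin n),
    Real.sqrt (∑ J, ‖Matrix.toEuclideanLin (D J) x‖ ^ 2) ≤ c * ‖x‖}

/-- The constant `C_K ∈ [0, ∞]`: the infimum of all `C` with `δ(A, B) ≤ C ‖A - B‖` for all `n` and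
all `K`-tuples `A`, `B` of `n × n` matrices. -/
noncomputable def spectralConst (K : ℕ) : ℝ≥0∞ :=
  sInf {C : ℝ≥0∞ | ∀ (n : ℕ) (A B : Fin K → Matrix (Fin n) (Fin n) ℂ)
    (α β : Fin n → EuclideanSpace ℝ (Fin K)), IsTuple A → IsTuple B →
    JointEigenvalues A α → JointEigenvalues B β →
    ENNReal.ofReal (matchDist α β) ≤ C * ENNReal.ofReal (tupleNorm (fun J => A J - B J))}

open Pool.Agent.Helper9 Complex Real

theorem tupleNorm_nonneg {K n : ℕ} (D : Fin K → Matrix (Fin n) (Fin n) ℂ) : 0 ≤ tupleNorm D :=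
  Real.sInf_nonneg fun _ hc => hc.1

/-- the infimum in the definition of `tupleNorm` is attained -/
theorem tupleNorm_spec {K n : ℕ} (D : Fin K → Matrix (Fin n) (Fin n) ℂ)
    (x : EuclideanSpace ℂ (Fin n)) :
    √(∑ J, ‖Matrix.toEuclideanLin (D J) x‖ ^ 2) ≤ tupleNorm D * ‖x‖ := by
  by_cases hx : ‖x‖ = 0
  · have h0 : x = 0 := norm_eq_zero.mp hx
    subst h0
    simp
  · have hxpos : 0 < ‖x‖ := lt_of_le_of_ne (norm_nonneg _) (Ne.symm hx)
    rw [← div_le_iff₀ hxpos]
    refine le_csInf ?_ ?_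
    · refine ⟨√(∑ J, ‖LinearMap.toContinuousLinearMap (Matrix.toEuclideanLin (D J))‖ ^ 2),
        Real.sqrt_nonneg _, fun y => ?_⟩
      rw [← Real.sqrt_sq (norm_nonneg y), ← Real.sqrt_mul (Finset.sum_nonneg fun _ _ => sq_nonneg _),
        Finset.sum_mul]
      refine Real.sqrt_le_sqrt (Finset.sum_le_sum fun J _ => ?_)
      rw [← mul_pow]
      exact pow_le_pow_left₀ (norm_nonneg _)
        ((LinearMap.toContinuousLinearMap (Matrix.toEuclideanLin (D J))).le_opNorm y) 2
    · rintro c ⟨_, hc⟩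
      rw [div_le_iff₀ hxpos]
      exact hc x

theorem exists_common {n : ℕ} (u w : OrthonormalBasis (Fin n) ℂ (EuclideanSpace ℂ (Fin n)))
    (S T : Finset (Fin n)) (h : n < S.card + T.card) :
    ∃ x : EuclideanSpace ℂ (Fin n), ‖x‖ = 1 ∧ (∀ j, j ∉ S → inner ℂ (u j) x = 0) ∧
      ∀ k, k ∉ T → inner ℂ (w k) x = 0 := by
  classical
  let L : EuclideanSpace ℂ (Fin n) →ₗ[ℂ] ((Sᶜ : Finset (Fin n)) → ℂ) × ((Tᶜ : Finset (Fin n)) → ℂ) :=
    (LinearMap.pi fun j : (Sᶜ : Finset (Fin n)) => (innerSL ℂ (u j)).toLinearMap).prod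
      (LinearMap.pi fun k : (Tᶜ : Finset (Fin n)) => (innerSL ℂ (w k)).toLinearMap)
  have hdim : Module.finrank ℂ (((Sᶜ : Finset (Fin n)) → ℂ) × ((Tᶜ : Finset (Fin n)) → ℂ)) <
      Module.finrank ℂ (EuclideanSpace ℂ (Fin n)) := by
    rw [Module.finrank_prod, Module.finrank_fintype_fun_eq_card,
      Module.finrank_fintype_fun_eq_card, finrank_euclideanSpace, Fintype.card_coe,
      Fintype.card_coe, Finset.card_compl, Finset.card_compl, Fintype.card_fin]
    have h1 := S.card_le_univ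
    have h2 := T.card_le_univ
    simp only [Fintype.card_fin] at h1 h2
    omega
  have hker := LinearMap.ker_ne_bot_of_finrank_lt (f := L) hdim
  obtain ⟨y, hy, hy0⟩ := Submodule.exists_mem_ne_zero_of_ne_bot hker
  rw [LinearMap.mem_ker] at hy
  have hyn : ‖y‖ ≠ 0 := norm_ne_zero_iff.mpr hy0
  refine ⟨((‖y‖⁻¹ : ℝ) : ℂ) • y, ?_, ?_, ?_⟩
  · rw [norm_smul, Complex.norm_real, norm_inv, norm_norm, inv_mul_cancel₀ hyn]
  · intro j hj
    have h1 := congrFun (congrArg Prod.fst hy) ⟨j, Finset.mem_compl.mpr hj⟩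
    have h2 : inner ℂ (u j) y = 0 := h1
    rw [inner_smul_right, h2, mul_zero]
  · intro k hk
    have h1 := congrFun (congrArg Prod.snd hy) ⟨k, Finset.mem_compl.mpr hk⟩
    have h2 : inner ℂ (w k) y = 0 := h1
    rw [inner_smul_right, h2, mul_zero]

theorem separation {K n : ℕ} (u w : OrthonormalBasis (Fin n) ℂ (EuclideanSpace ℂ (Fin n)))
    (A B : Fin K → EuclideanSpace ℂ (Fin n) →ₗ[ℂ] EuclideanSpace ℂ (Fin n))
    (α β : Fin n → EuclideanSpace ℝ (Fin K))
    (hA : ∀ j J, A J (u j) = ((α j J : ℝ) : ℂ) • u j)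
    (hB : ∀ j J, B J (w j) = ((β j J : ℝ) : ℂ) • w j)
    (η : ℝ) (hη : 0 ≤ η) (hAB : ∀ y, ∑ J, ‖A J y - B J y‖ ^ 2 ≤ (η * ‖y‖) ^ 2)
    (S T : Finset (Fin n)) (hST : n < S.card + T.card) (d : ℝ) (hd : 0 < d)
    (hsep : ∀ j ∈ S, ∀ k ∈ T, d ≤ ‖α j - β k‖) : d ≤ √6 * K * η := by
  classical
  obtain ⟨x, hx, hxS, hxT⟩ := exists_common u w S T hST
  -- `K ≥ 1`
  have hSne : S.Nonempty := by
    rw [← Finset.card_pos]
    have := T.card_le_univ
    simp only [Fintype.card_fin] at this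
    omega
  have hTne : T.Nonempty := by
    rw [← Finset.card_pos]
    have := S.card_le_univ
    simp only [Fintype.card_fin] at this
    omega
  obtain ⟨j0, hj0⟩ := hSne
  obtain ⟨k0, hk0⟩ := hTne
  have hK : 0 < K := by
    rcases Nat.eq_zero_or_pos K with h0 | h0
    · exfalso
      subst h0
      have h1 := hsep j0 hj0 k0 hk0
      have h2 : α j0 - β k0 = 0 := Subsingleton.elim _ _
      rw [h2, norm_zero] at h1
      linarith
    · exact h0
  have hKr : (0 : ℝ) < K := by exact_mod_cast hK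
  set s : ℝ := √K / d with hs
  have hspos : 0 < s := by positivity
  have hs2 : s ^ 2 = K / d ^ 2 := by
    rw [hs, div_pow, Real.sq_sqrt hKr.le]
  let wt : Fin n × Fin n → ℂ := fun p =>
    inner ℂ x (u p.1) * inner ℂ (w p.2) x * inner ℂ (u p.1) (w p.2)
  let z : Fin n × Fin n → Fin K → ℝ := fun p J => s * (α p.1 J - β p.2 J)
  have hz : ∀ p ∈ S ×ˢ T, ∃ J, 1 ≤ |z p J| := by
    rintro ⟨j, k⟩ hp
    rw [Finset.mem_product] at hp
    by_contra hcon
    push Not at hcon
    have h1 := hsep j hp.1 k hp.2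
    have h2 : ‖α j - β k‖ ^ 2 = ∑ J, (α j J - β k J) ^ 2 := by
      rw [EuclideanSpace.norm_sq_eq]
      refine Finset.sum_congr rfl fun J _ => ?_
      rw [Real.norm_eq_abs, sq_abs]
      rfl
    have h3 : ∑ J, (z (j, k) J) ^ 2 < ∑ _J : Fin K, (1 : ℝ) := by
      refine Finset.sum_lt_sum_of_nonempty ⟨⟨0, hK⟩, Finset.mem_univ _⟩ fun J _ => ?_
      have := hcon J
      rw [← sq_abs]
      nlinarith [abs_nonneg (z (j, k) J)]
    have h4 : ∑ J, (z (j, k) J) ^ 2 = s ^ 2 * ‖α j - β k‖ ^ 2 := by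
      rw [h2, Finset.mul_sum]
      refine Finset.sum_congr rfl fun J _ => ?_
      simp only [z]
      ring
    rw [h4, hs2] at h3
    simp only [Finset.sum_const, Finset.card_univ, Fintype.card_fin, nsmul_eq_mul, mul_one] at h3
    have h5 : d ^ 2 ≤ ‖α j - β k‖ ^ 2 := by
      have := norm_nonneg (α j - β k)
      nlinarith
    have h6 : (K : ℝ) ≤ K / d ^ 2 * ‖α j - β k‖ ^ 2 := by
      rw [div_mul_eq_mul_div, le_div_iff₀ (by positivity)]
      exact mul_le_mul_of_nonneg_left h5 hKr.le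
    linarith
  have hmain : 1 ≤ (s ^ 2 * η ^ 2 / 2) * (12 * K) := by
    refine Kernel.trig_bound (S ×ˢ T) wt z hz (s ^ 2 * η ^ 2 / 2) fun t => ?_
    set H : EuclideanSpace ℂ (Fin n) →ₗ[ℂ] EuclideanSpace ℂ (Fin n) :=
      ∑ J, ((2 * π * s * t J : ℝ) : ℂ) • A J with hH
    set G : EuclideanSpace ℂ (Fin n) →ₗ[ℂ] EuclideanSpace ℂ (Fin n) :=
      ∑ J, ((2 * π * s * t J : ℝ) : ℂ) • B J with hG
    have hHu : ∀ j, H (u j) = ((∑ J, 2 * π * s * t J * α j J : ℝ) : ℂ) • u j := by
      intro j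
      rw [hH, LinearMap.sum_apply]
      simp only [LinearMap.smul_apply, hA, smul_smul]
      rw [← Finset.sum_smul]
      congr 1
      push_cast
      rfl
    have hGw : ∀ j, G (w j) = ((∑ J, 2 * π * s * t J * β j J : ℝ) : ℂ) • w j := by
      intro j
      rw [hG, LinearMap.sum_apply]
      simp only [LinearMap.smul_apply, hB, smul_smul]
      rw [← Finset.sum_smul]
      congr 1
      push_cast
      rfl
    set N : ℝ := ∑ J, (2 * π * t J) ^ 2 with hN
    have hN0 : 0 ≤ N := Finset.sum_nonneg fun _ _ => sq_nonneg _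
    have hc : ∀ y, ‖H y - G y‖ ≤ (s * √N * η) * ‖y‖ := by
      intro y
      have h1 : H y - G y = ∑ J, ((2 * π * s * t J : ℝ) : ℂ) • (A J y - B J y) := by
        rw [hH, hG, LinearMap.sum_apply, LinearMap.sum_apply, ← Finset.sum_sub_distrib]
        refine Finset.sum_congr rfl fun J _ => ?_
        rw [LinearMap.smul_apply, LinearMap.smul_apply, smul_sub]
      have h2 : ‖H y - G y‖ ≤ ∑ J, (s * |2 * π * t J|) * ‖A J y - B J y‖ := by
        rw [h1]
        refine (norm_sum_le _ _).trans (Finset.sum_le_sum fun J _ => ?_)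
        rw [norm_smul, Complex.norm_real, Real.norm_eq_abs]
        have : 2 * π * s * t J = s * (2 * π * t J) := by ring
        rw [this, abs_mul, abs_of_pos hspos]
      have h3 : (∑ J, (s * |2 * π * t J|) * ‖A J y - B J y‖) ^ 2 ≤
          (∑ J, (s * |2 * π * t J|) ^ 2) * ∑ J, ‖A J y - B J y‖ ^ 2 :=
        Finset.sum_mul_sq_le_sq_mul_sq _ _ _
      have h4 : ∑ J, (s * |2 * π * t J|) ^ 2 = s ^ 2 * N := by
        rw [hN, Finset.mul_sum]
        refine Finset.sum_congr rfl fun J _ => ?_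
        rw [mul_pow, sq_abs]
      have h5 : ‖H y - G y‖ ^ 2 ≤ ((s * √N * η) * ‖y‖) ^ 2 := by
        calc ‖H y - G y‖ ^ 2 ≤ (∑ J, (s * |2 * π * t J|) * ‖A J y - B J y‖) ^ 2 := by
              have := norm_nonneg (H y - G y)
              nlinarith
          _ ≤ (s ^ 2 * N) * (η * ‖y‖) ^ 2 := by
              rw [h4] at h3
              exact h3.trans (mul_le_mul_of_nonneg_left (hAB y) (by positivity))
          _ = ((s * √N * η) * ‖y‖) ^ 2 := by
              have := Real.sq_sqrt hN0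
              calc s ^ 2 * N * (η * ‖y‖) ^ 2 = s ^ 2 * (√N ^ 2) * (η * ‖y‖) ^ 2 := by rw [this]
                _ = _ := by ring
      have h6 : 0 ≤ (s * √N * η) * ‖y‖ := by positivity
      exact (sq_le_sq₀ (norm_nonneg _) h6).mp h5
    have hcmp := Compare.compare u w H G _ _ hHu hGw (s * √N * η) hc x hx
    have h1 : 1 - s ^ 2 * η ^ 2 / 2 * N = 1 - (s * √N * η) ^ 2 / 2 := by
      have := Real.sq_sqrt hN0
      calc 1 - s ^ 2 * η ^ 2 / 2 * N = 1 - s ^ 2 * η ^ 2 / 2 * (√N ^ 2) := by rw [this]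
        _ = _ := by ring
    rw [h1]
    refine hcmp.trans (le_of_eq ?_)
    congr 1
    rw [← Finset.sum_product', Finset.univ_product_univ,
      ← Finset.sum_subset (Finset.subset_univ (S ×ˢ T))]
    · refine Finset.sum_congr rfl ?_
      rintro ⟨j, k⟩ _
      simp only [wt, z]
      congr 4
      rw [← Finset.sum_sub_distrib, Finset.mul_sum]
      refine Finset.sum_congr rfl fun J _ => ?_
      ring
    · rintro ⟨j, k⟩ _ hp
      rw [Finset.mem_product, not_and_or] at hp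
      rcases hp with hp | hp
      · have h2 : inner ℂ x (u j) = 0 := by
          rw [← inner_conj_symm, hxS j hp, map_zero]
        simp only [h2, zero_mul]
      · simp only [hxT k hp, mul_zero, zero_mul]
  have h1 : d ^ 2 ≤ (√6 * K * η) ^ 2 := by
    rw [hs2] at hmain
    have h2 : (K / d ^ 2 * η ^ 2 / 2) * (12 * K) = 6 * K ^ 2 * η ^ 2 / d ^ 2 := by
      field_simp
      ring
    rw [h2, le_div_iff₀ (by positivity), one_mul] at hmain
    calc d ^ 2 ≤ 6 * K ^ 2 * η ^ 2 := hmain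
      _ = (√6 * K * η) ^ 2 := by
          have : (√6 : ℝ) ^ 2 = 6 := Real.sq_sqrt (by norm_num)
          rw [mul_pow, mul_pow, this]
  exact (sq_le_sq₀ hd.le (by positivity)).mp h1

theorem exists_matching {K n : ℕ} (A B : Fin K → Matrix (Fin n) (Fin n) ℂ)
    (α β : Fin n → EuclideanSpace ℝ (Fin K)) (hA : JointEigenvalues A α)
    (hB : JointEigenvalues B β) :
    ∃ σ : Equiv.Perm (Fin n), ∀ j, ‖α j - β (σ j)‖ ≤ √6 * K * tupleNorm (fun J => A J - B J) := by
  classical
  obtain ⟨u, hu⟩ := hA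
  obtain ⟨w, hw⟩ := hB
  set η : ℝ := tupleNorm (fun J => A J - B J) with hη
  have hη0 : 0 ≤ η := tupleNorm_nonneg _
  have hAB : ∀ y, ∑ J, ‖Matrix.toEuclideanLin (A J) y - Matrix.toEuclideanLin (B J) y‖ ^ 2 ≤
      (η * ‖y‖) ^ 2 := by
    intro y
    have h1 := tupleNorm_spec (fun J => A J - B J) y
    have h2 : ∑ J, ‖Matrix.toEuclideanLin (A J - B J) y‖ ^ 2 =
        ∑ J, ‖Matrix.toEuclideanLin (A J) y - Matrix.toEuclideanLin (B J) y‖ ^ 2 := by
      refine Finset.sum_congr rfl fun J _ => ?_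
      rw [map_sub, LinearMap.sub_apply]
    rw [← h2, ← Real.sq_sqrt (Finset.sum_nonneg fun J _ =>
      sq_nonneg ‖Matrix.toEuclideanLin (A J - B J) y‖)]
    exact pow_le_pow_left₀ (Real.sqrt_nonneg _) h1 2
  let t : Fin n → Finset (Fin n) := fun j => Finset.univ.filter fun k => ‖α j - β k‖ ≤ √6 * K * η
  have hall : ∀ S : Finset (Fin n), S.card ≤ (S.biUnion t).card := by
    intro S
    by_contra hlt
    push Not at hlt
    set T := (S.biUnion t)ᶜ with hT
    have hTc : T.card = n - (S.biUnion t).card := by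
      rw [hT, Finset.card_compl, Fintype.card_fin]
    have hle : (S.biUnion t).card ≤ n := by
      have := (S.biUnion t).card_le_univ
      simpa using this
    have hST : n < S.card + T.card := by omega
    have hSle : S.card ≤ n := by
      have := S.card_le_univ
      simpa using this
    have hne : (S ×ˢ T).Nonempty := by
      rw [Finset.nonempty_product]
      constructor
      · rw [← Finset.card_pos]; omega
      · rw [← Finset.card_pos]; omega
    obtain ⟨p, hp, hmin⟩ := Finset.exists_min_image (S ×ˢ T) (fun p => ‖α p.1 - β p.2‖) hne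
    rw [Finset.mem_product] at hp
    have hgt : √6 * K * η < ‖α p.1 - β p.2‖ := by
      by_contra hle
      push Not at hle
      have h1 : p.2 ∈ S.biUnion t := by
        rw [Finset.mem_biUnion]
        exact ⟨p.1, hp.1, Finset.mem_filter.mpr ⟨Finset.mem_univ _, hle⟩⟩
      exact (Finset.mem_compl.mp hp.2) h1
    have hpos : 0 < ‖α p.1 - β p.2‖ := lt_of_le_of_lt (by positivity) hgt
    have := separation u w (fun J => Matrix.toEuclideanLin (A J))
      (fun J => Matrix.toEuclideanLin (B J)) α β hu hw η hη0 hAB S T hST _ hpos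
      (fun j hj k hk => hmin (j, k) (Finset.mk_mem_product hj hk))
    linarith
  obtain ⟨f, hf, hft⟩ := (Finset.all_card_le_biUnion_card_iff_exists_injective t).mp hall
  refine ⟨Equiv.ofBijective f (Finite.injective_iff_bijective.mp hf), fun j => ?_⟩
  have h1 := hft j
  simp only [t, Finset.mem_filter, Finset.mem_univ, true_and] at h1
  exact h1

/-- For every `K`, the constant `C_K` is finite; more precisely `C_K ≤ √6 K`. -/
theorem result (K : ℕ) : spectralConst K ≤ ENNReal.ofReal (√6 * K) ∧ spectralConst K < ⊤ := by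
  have h : spectralConst K ≤ ENNReal.ofReal (√6 * K) := by
    refine sInf_le ?_
    intro n A B α β _ _ hA hB
    obtain ⟨σ, hσ⟩ := exists_matching A B α β hA hB
    rw [← ENNReal.ofReal_mul (by positivity)]
    refine ENNReal.ofReal_le_ofReal ?_
    have h0 : 0 ≤ √6 * K * tupleNorm (fun J => A J - B J) := by
      have : 0 ≤ tupleNorm (fun J => A J - B J) := tupleNorm_nonneg _
      positivity
    have h1 : ⨆ j : Fin n, ‖α j - β (σ j)‖ ≤ √6 * K * tupleNorm (fun J => A J - B J) :=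
      Real.iSup_le hσ h0
    exact (ciInf_le (Set.finite_range _).bddBelow σ).trans h1
  exact ⟨h, h.trans_lt ENNReal.ofReal_lt_top⟩

end Pool.Agent.Results.MP_434093_an.FiniteLinear
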